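import Mathlib
import Pool.Agent.Lib.MP_6a1796_co.Main

/-!
Contact numbers of `lam`-separable packings of unit disks, `√3/2 < lam ≤ 1`.
-/

namespace Pool.Agent.Results.MP_6a1796_co.Full

open Metric

/-- The Euclidean plane. -/
abbrev Plane := EuclideanSpace ℝ (Fin 2)

/-- The closed disks of radius `ρ` centred at the points `x i` have pairwise disjoint interiors. -/
def IsPacking {n : ℕ} (x : Fin n → Plane) (ρ : ℝ) : Prop :=
  ∀ i j, i ≠ j → Disjoint (interior (closedBall (x i) ρ)) (interior (closedBall (x j) ρ))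

/-- Any two of the closed disks of radius `ρ` centred at the points `x i` are separated by a line
`{p | ⟪u, p⟫ = c}` (`u ≠ 0`) that is disjoint from the interior of every one of the disks. -/
def TotallySeparable {n : ℕ} (x : Fin n → Plane) (ρ : ℝ) : Prop :=
  ∀ i j, i ≠ j → ∃ (u : Plane) (c : ℝ), u ≠ 0 ∧
    (∀ p ∈ closedBall (x i) ρ, inner ℝ u p ≤ c) ∧
    (∀ p ∈ closedBall (x j) ρ, c ≤ inner ℝ u p) ∧
    ∀ k, Disjoint {p : Plane | inner ℝ u p = c} (interior (closedBall (x k) ρ))

/-- The unit disks centred at the `x i` form a packing, and the concentric disks of radius `lam`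
form a totally separable packing. -/
def LamSeparablePacking {n : ℕ} (x : Fin n → Plane) (lam : ℝ) : Prop :=
  IsPacking x 1 ∧ IsPacking x lam ∧ TotallySeparable x lam

open Classical in
/-- The number of unordered pairs of touching unit disks (centres at distance exactly `2`). -/
noncomputable def contactNumber {n : ℕ} (x : Fin n → Plane) : ℕ :=
  (Finset.univ.filter
    (fun p : Fin n × Fin n => p.1 < p.2 ∧ dist (x p.1) (x p.2) = 2)).card

open Pool.Agent.Lib.MP_6a1796_co

lemma inner_eq (u p : Plane) : inner ℝ u p = u 0 * p 0 + u 1 * p 1 := by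
  simp [PiLp.inner_apply, Fin.sum_univ_two, mul_comm]

lemma dist_sq (p q : Plane) : dist p q ^ 2 = (q 0 - p 0) ^ 2 + (q 1 - p 1) ^ 2 := by
  rw [EuclideanSpace.dist_sq_eq, Fin.sum_univ_two, Real.dist_eq, Real.dist_eq, sq_abs, sq_abs]
  ring

lemma packing_iff {n : ℕ} (x : Fin n → Plane) {ρ : ℝ} (h : 0 < ρ) :
    IsPacking x ρ ↔ ∀ i j, i ≠ j → ρ + ρ ≤ dist (x i) (x j) := by
  unfold IsPacking
  simp only [interior_closedBall _ h.ne', disjoint_ball_ball_iff h h]

/-- the rescaled configuration -/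
noncomputable def cfg {n : ℕ} (x : Fin n → Plane) (lam : ℝ) : Cfg (Fin n) :=
  ⟨fun k => x k 0 / 2, fun k => x k 1 / 2, lam⟩

lemma cfg_dist {n : ℕ} (x : Fin n → Plane) (lam : ℝ) (i j : Fin n) :
    ((cfg x lam).X j - (cfg x lam).X i) ^ 2 + ((cfg x lam).Y j - (cfg x lam).Y i) ^ 2
      = dist (x i) (x j) ^ 2 / 4 := by
  rw [dist_sq]; simp only [cfg]; ring

lemma cfg_adj {n : ℕ} (x : Fin n → Plane) (lam : ℝ) (i j : Fin n) :
    (cfg x lam).Adj i j ↔ dist (x i) (x j) = 2 := by
  unfold Cfg.Adj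
  rw [cfg_dist]
  constructor
  · intro h
    have h2 : dist (x i) (x j) ^ 2 = 2 ^ 2 := by linarith
    exact (pow_left_inj₀ dist_nonneg (by norm_num) (by norm_num)).mp h2
  · intro h; rw [h]; norm_num

lemma shift_mem (q u : Plane) (t : ℝ) : dist (q + t • u) q = |t| * ‖u‖ := by
  rw [dist_eq_norm, add_sub_cancel_left, norm_smul, Real.norm_eq_abs]

lemma inner_shift (q u : Plane) (t : ℝ) :
    inner ℝ u (q + t • u) = inner ℝ u q + t * ‖u‖ ^ 2 := by
  rw [inner_add_right, inner_smul_right, real_inner_self_eq_norm_sq]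

lemma cfg_good {n : ℕ} (x : Fin n → Plane) (lam : ℝ) (h1 : Real.sqrt 3 / 2 < lam)
    (h : LamSeparablePacking x lam) : (cfg x lam).Good := by
  have h3 : 0 < Real.sqrt 3 / 2 := by positivity
  have l0 : 0 < lam := lt_trans h3 h1
  refine ⟨l0, ?_, fun i j hij => ?_, fun i j hij => ?_⟩
  · have := pow_lt_pow_left₀ h1 h3.le (two_ne_zero)
    rw [div_pow, Real.sq_sqrt (by norm_num)] at this
    simp only [cfg]
    linarith
  · rw [cfg_dist]
    have := (packing_iff x one_pos).mp h.1 i j hij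
    nlinarith
  · obtain ⟨u, c, hu, hi, hj, hk⟩ := h.2.2 i j hij.ne
    have hN : 0 < ‖u‖ := norm_pos_iff.mpr hu
    have hN2 : ‖u‖ ^ 2 = u 0 ^ 2 + u 1 ^ 2 := by
      rw [← real_inner_self_eq_norm_sq, inner_eq]; ring
    have hf : ∀ k, (cfg x lam).f (u 0 / ‖u‖) (u 1 / ‖u‖) k = inner ℝ u (x k) / (2 * ‖u‖) := by
      intro k
      rw [inner_eq]
      simp only [cfg, Cfg.f]
      field_simp
    have lo : ∀ k, inner ℝ u (x k) + lam * ‖u‖ ≤ c →
        (cfg x lam).f (u 0 / ‖u‖) (u 1 / ‖u‖) k ≤ c / (2 * ‖u‖) - lam / 2 := by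
      intro k hk
      rw [hf, le_sub_iff_add_le, le_div_iff₀ (by positivity)]
      have : (inner ℝ u (x k) / (2 * ‖u‖) + lam / 2) * (2 * ‖u‖)
        = inner ℝ u (x k) + lam * ‖u‖ := by field_simp
      linarith
    have hi' : ∀ k, c + lam * ‖u‖ ≤ inner ℝ u (x k) →
        c / (2 * ‖u‖) - lam / 2 + (cfg x lam).l ≤ (cfg x lam).f (u 0 / ‖u‖) (u 1 / ‖u‖) k := by
      intro k hk
      rw [hf, le_div_iff₀ (by positivity)]
      have : (c / (2 * ‖u‖) - lam / 2 + (cfg x lam).l) * (2 * ‖u‖) = c + lam * ‖u‖ := by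
        simp only [cfg]; field_simp; ring
      linarith
    refine ⟨u 0 / ‖u‖, u 1 / ‖u‖, c / (2 * ‖u‖) - lam / 2, ⟨?_, fun k => ?_⟩, lo i ?_, hi' j ?_⟩
    · field_simp
      exact hN2.symm
    · by_contra hc
      rw [not_or] at hc
      have c1 : c < inner ℝ u (x k) + lam * ‖u‖ := by
        by_contra h'; exact hc.1 (lo k (by linarith))
      have c2 : inner ℝ u (x k) < c + lam * ‖u‖ := by
        by_contra h'; exact hc.2 (hi' k (by linarith))
      have hd := hk k
      rw [interior_closedBall _ l0.ne', Set.disjoint_left] at hd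
      apply hd (a := x k + ((c - inner ℝ u (x k)) / ‖u‖ ^ 2) • u)
      · simp only [Set.mem_ofPred_eq]
        rw [inner_shift]
        field_simp
        ring
      · rw [mem_ball, shift_mem, abs_div, abs_of_pos (by positivity : 0 < ‖u‖ ^ 2)]
        have : |c - inner ℝ u (x k)| < lam * ‖u‖ := abs_lt.mpr ⟨by linarith, by linarith⟩
        rw [div_mul_eq_mul_div, div_lt_iff₀ (by positivity)]
        nlinarith
    · have := hi (x i + (lam / ‖u‖) • u) (by
        rw [mem_closedBall, shift_mem, abs_of_pos (by positivity)]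
        exact le_of_eq (by field_simp))
      rw [inner_shift] at this
      have e : lam / ‖u‖ * ‖u‖ ^ 2 = lam * ‖u‖ := by field_simp
      linarith
    · have := hj (x j + (-(lam / ‖u‖)) • u) (by
        rw [mem_closedBall, shift_mem, abs_neg, abs_of_pos (by positivity)]
        exact le_of_eq (by field_simp))
      rw [inner_shift] at this
      have e : -(lam / ‖u‖) * ‖u‖ ^ 2 = -(lam * ‖u‖) := by field_simp
      linarith

open Classical in
lemma contact_eq {n : ℕ} (x : Fin n → Plane) :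
    contactNumber x = ∑ j, ∑ i, if i < j ∧ dist (x i) (x j) = 2 then 1 else 0 := by
  unfold contactNumber
  rw [Finset.card_filter, Fintype.sum_prod_type_right]

lemma two_contact_le {n : ℕ} (x : Fin n → Plane) (lam : ℝ) :
    2 * contactNumber x ≤ (cfg x lam).D Finset.univ := by
  classical
  have h1 := contact_eq x
  have h2 : contactNumber x = ∑ j, ∑ i, if j < i ∧ dist (x i) (x j) = 2 then 1 else 0 := by
    rw [h1, Finset.sum_comm]
    simp only [dist_comm]
  rw [two_mul]
  nth_rewrite 1 [h1]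
  rw [h2, ← Finset.sum_add_distrib]
  unfold Cfg.D
  apply Finset.sum_le_sum
  intro j _
  rw [Finset.card_filter, ← Finset.sum_add_distrib]
  apply Finset.sum_le_sum
  intro i _
  simp only [cfg_adj, dist_comm (x j) (x i)]
  by_cases hd : dist (x i) (x j) = 2
  · by_cases hij : i < j
    · have : ¬ j < i := not_lt.mpr hij.le
      simp [hd, hij, this]
    · simp only [hd, hij, if_false, and_true, if_true]
      split_ifs <;> omega
  · simp [hd]

lemma upper {n : ℕ} (x : Fin n → Plane) (lam : ℝ) (h1 : Real.sqrt 3 / 2 < lam)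
    (h : LamSeparablePacking x lam) :
    (contactNumber x : ℤ) ≤ ⌊2 * (n : ℝ) - 2 * Real.sqrt n⌋ := by
  obtain ⟨r, c, a1, a2⟩ := ((cfg_good x lam h1 h).main _ Finset.univ rfl).1
  have a3 := two_contact_le x lam
  simp only [Finset.card_univ, Fintype.card_fin] at a1 a2
  have a4 : r + c + contactNumber x ≤ 2 * n := by omega
  have b1 : (n : ℝ) ≤ r * c := by exact_mod_cast a1
  have b2 : (r : ℝ) + c + contactNumber x ≤ 2 * n := by exact_mod_cast a4
  have b3 : Real.sqrt n ≤ (r + c) / 2 := by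
    apply Real.sqrt_le_iff.mpr
    refine ⟨by positivity, ?_⟩
    nlinarith [sq_nonneg ((r : ℝ) - c)]
  apply Int.le_floor.mpr
  push_cast
  linarith

/-- a piece of the square grid with rows of length `c` -/
noncomputable def grid (n c : ℕ) : Fin n → Plane :=
  fun i => !₂[2 * (((i : ℕ) % c : ℕ) : ℝ), 2 * (((i : ℕ) / c : ℕ) : ℝ)]

lemma coord_le (p q : Plane) (t : Fin 2) : |p t - q t| ≤ dist p q := by
  rw [← Real.dist_eq]
  exact PiLp.dist_apply_le p q t

lemma sep_of_coord {n : ℕ} (x : Fin n → Plane) (lam : ℝ) (l0 : 0 < lam) (l1 : lam ≤ 1)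
    (t : Fin 2) (g : Fin n → ℕ) (hg : ∀ k, x k t = 2 * (g k : ℝ)) (i j : Fin n)
    (hij : g i ≠ g j) : ∃ (u : Plane) (c : ℝ), u ≠ 0 ∧
    (∀ p ∈ closedBall (x i) lam, inner ℝ u p ≤ c) ∧
    (∀ p ∈ closedBall (x j) lam, c ≤ inner ℝ u p) ∧
    ∀ k, Disjoint {p : Plane | inner ℝ u p = c} (interior (closedBall (x k) lam)) := by
  have hin : ∀ (σ : ℝ) (p : Plane), inner ℝ (EuclideanSpace.single t σ) p = σ * p t := by
    intro σ p
    rw [EuclideanSpace.inner_single_left]; simp
  have hne : ∀ σ : ℝ, σ ≠ 0 → (EuclideanSpace.single t σ : Plane) ≠ 0 := by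
    intro σ hσ h
    have := congrArg (fun p : Plane => p t) h
    simp at this
    exact hσ this
  have cl : ∀ k, ∀ p ∈ closedBall (x k) lam, 2 * (g k : ℝ) - 1 ≤ p t ∧ p t ≤ 2 * (g k : ℝ) + 1 := by
    intro k p hp
    have := abs_le.mp (le_trans (coord_le p (x k) t) (mem_closedBall.mp hp))
    rw [hg] at this
    constructor <;> linarith [this.1, this.2]
  have op : ∀ (m : ℕ) k, ∀ p ∈ interior (closedBall (x k) lam), p t ≠ 2 * (m : ℝ) + 1 := by
    intro m k p hp he
    rw [interior_closedBall _ l0.ne'] at hp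
    have := abs_lt.mp (lt_of_le_of_lt (coord_le p (x k) t) (mem_ball.mp hp))
    rw [hg, he] at this
    have a1 : (g k : ℝ) < m + 1 := by linarith [this.1]
    have a2 : (m : ℝ) < g k := by linarith [this.2]
    have a3 : g k < m + 1 := by exact_mod_cast a1
    have a4 : m < g k := by exact_mod_cast a2
    omega
  rcases lt_or_gt_of_ne hij with h | h
  · have h' : (g i : ℝ) + 1 ≤ g j := by exact_mod_cast h
    refine ⟨EuclideanSpace.single t 1, 2 * (g i : ℝ) + 1, hne 1 one_ne_zero, ?_, ?_, ?_⟩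
    · intro p hp; rw [hin]; linarith [(cl i p hp).2]
    · intro p hp; rw [hin]; linarith [(cl j p hp).1]
    · intro k
      rw [Set.disjoint_left]
      intro p hp hp'
      simp only [Set.mem_ofPred_eq, hin] at hp
      exact op (g i) k p hp' (by linarith)
  · have h' : (g j : ℝ) + 1 ≤ g i := by exact_mod_cast h
    refine ⟨EuclideanSpace.single t (-1), -(2 * (g j : ℝ) + 1), hne _ (by norm_num), ?_, ?_, ?_⟩
    · intro p hp; rw [hin]; linarith [(cl i p hp).1]
    · intro p hp; rw [hin]; linarith [(cl j p hp).2]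
    · intro k
      rw [Set.disjoint_left]
      intro p hp hp'
      simp only [Set.mem_ofPred_eq, hin] at hp
      exact op (g j) k p hp' (by linarith)

lemma grid_ne (n c : ℕ) (i j : Fin n) (h : i ≠ j) :
    (i : ℕ) % c ≠ (j : ℕ) % c ∨ (i : ℕ) / c ≠ (j : ℕ) / c := by
  by_contra hc
  push Not at hc
  apply h
  ext
  rw [← Nat.mod_add_div i c, ← Nat.mod_add_div j c, hc.1, hc.2]

lemma far (a b : ℕ) (h : a ≠ b) : (2 : ℝ) ≤ |2 * (a : ℝ) - 2 * (b : ℝ)| := by
  rcases lt_or_gt_of_ne h with h | h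
  · have h' : (a : ℝ) + 1 ≤ b := by exact_mod_cast h
    exact le_abs.mpr (Or.inr (by linarith))
  · have h' : (b : ℝ) + 1 ≤ a := by exact_mod_cast h
    exact le_abs.mpr (Or.inl (by linarith))

lemma grid_sep (n c : ℕ) (lam : ℝ) (l0 : 0 < lam) (l1 : lam ≤ 1) :
    LamSeparablePacking (grid n c) lam := by
  have hd : ∀ i j, i ≠ j → 2 ≤ dist (grid n c i) (grid n c j) := by
    intro i j hij
    rcases grid_ne n c i j hij with h | h
    · exact le_trans (far _ _ h) (coord_le (grid n c i) (grid n c j) 0)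
    · exact le_trans (far _ _ h) (coord_le (grid n c i) (grid n c j) 1)
  refine ⟨(packing_iff _ one_pos).mpr fun i j h => by linarith [hd i j h],
    (packing_iff _ l0).mpr fun i j h => by linarith [hd i j h], fun i j hij => ?_⟩
  rcases grid_ne n c i j hij with h | h
  · exact sep_of_coord _ lam l0 l1 0 (fun k => (k : ℕ) % c) (fun k => rfl) i j h
  · exact sep_of_coord _ lam l0 l1 1 (fun k => (k : ℕ) / c) (fun k => rfl) i j h

lemma dist_two (p q : Plane) (h : (q 0 - p 0) ^ 2 + (q 1 - p 1) ^ 2 = 4) : dist p q = 2 := by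
  have h2 : dist p q ^ 2 = 2 ^ 2 := by rw [dist_sq, h]; norm_num
  exact (pow_left_inj₀ dist_nonneg (by norm_num) (by norm_num)).mp h2

lemma grid_contact (n c r : ℕ) (hc : 2 ≤ c) (hr : n ≤ r * c) :
    2 * n ≤ contactNumber (grid n c) + r + c := by
  classical
  have h1 : ∑ j : Fin n, ((if (j : ℕ) % c ≠ 0 then 1 else 0) + (if c ≤ (j : ℕ) then 1 else 0))
      ≤ contactNumber (grid n c) := by
    rw [contact_eq]
    apply Finset.sum_le_sum
    intro j _
    rw [← Finset.card_filter]
    have hj := j.2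
    have m1 : (j : ℕ) % c ≠ 0 → (⟨(j : ℕ) - 1, by omega⟩ : Fin n) ∈
        Finset.univ.filter (fun i => i < j ∧ dist (grid n c i) (grid n c j) = 2) := by
      intro h
      have hj0 : (j : ℕ) ≠ 0 := by rintro h0; rw [h0] at h; simp at h
      simp only [Finset.mem_filter, Finset.mem_univ, true_and]
      refine ⟨by rw [Fin.lt_def]; simp only; omega, dist_two _ _ ?_⟩
      have e0 : (j : ℕ) - 1 = ((j : ℕ) % c - 1) + c * ((j : ℕ) / c) := by
        have := Nat.mod_add_div j c
        omega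
      have hlt : (j : ℕ) % c < c := Nat.mod_lt _ (by omega)
      have e1 : ((j : ℕ) - 1) % c + 1 = (j : ℕ) % c := by
        rw [e0, Nat.add_mul_mod_self_left, Nat.mod_eq_of_lt (by omega)]; omega
      have e2 : ((j : ℕ) - 1) / c = (j : ℕ) / c := by
        rw [e0, Nat.add_mul_div_left _ _ (by omega), Nat.div_eq_of_lt (by omega)]; omega
      simp only [grid, PiLp.toLp_apply, Matrix.cons_val_zero, Matrix.cons_val_one]
      rw [e2, ← e1]
      push_cast
      ring
    have m2 : c ≤ (j : ℕ) → (⟨(j : ℕ) - c, by omega⟩ : Fin n) ∈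
        Finset.univ.filter (fun i => i < j ∧ dist (grid n c i) (grid n c j) = 2) := by
      intro h
      simp only [Finset.mem_filter, Finset.mem_univ, true_and]
      refine ⟨by rw [Fin.lt_def]; simp only; omega, dist_two _ _ ?_⟩
      have e1 : ((j : ℕ) - c) % c = (j : ℕ) % c := (Nat.mod_eq_sub_mod h).symm
      have e2 : ((j : ℕ) - c) / c + 1 = (j : ℕ) / c := (Nat.div_eq_sub_div (by omega) h).symm
      simp only [grid, PiLp.toLp_apply, Matrix.cons_val_zero, Matrix.cons_val_one]
      rw [e1, ← e2]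
      push_cast
      ring
    split_ifs with p1 p2 p2
    · refine Finset.one_lt_card.mpr ⟨_, m1 p1, _, m2 p2, ?_⟩
      intro h
      have := congrArg Fin.val h
      simp only at this
      omega
    · exact Finset.card_pos.mpr ⟨_, m1 p1⟩
    · exact Finset.card_pos.mpr ⟨_, m2 p2⟩
    · exact Nat.zero_le _
  have h2 : (Finset.univ.filter (fun j : Fin n => ¬ (j : ℕ) % c ≠ 0)).card ≤ r := by
    rw [← Finset.card_range r]
    apply Finset.card_le_card_of_injOn (fun j : Fin n => (j : ℕ) / c)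
    · intro j _
      simp only [Finset.coe_range, Set.mem_Iio]
      exact (Nat.div_lt_iff_lt_mul (by omega)).mpr (lt_of_lt_of_le j.2 hr)
    · intro i hi j hj hij
      simp only [Finset.coe_filter, Set.mem_ofPred_eq, not_not] at hi hj
      simp only at hij
      ext
      rw [← Nat.mod_add_div i c, ← Nat.mod_add_div j c, hi.2, hj.2, hij]
  have h3 : (Finset.univ.filter (fun j : Fin n => ¬ c ≤ (j : ℕ))).card ≤ c := by
    conv_rhs => rw [← Finset.card_range c]
    apply Finset.card_le_card_of_injOn (fun j : Fin n => (j : ℕ))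
    · intro j hj
      simp only [Finset.coe_filter, Set.mem_ofPred_eq, not_le] at hj
      simp only [Finset.coe_range, Set.mem_Iio]
      exact hj.2
    · intro i _ j _ hij
      exact Fin.ext hij
  have h4 := Finset.card_filter_add_card_filter_not (s := (Finset.univ : Finset (Fin n)))
    (fun j => (j : ℕ) % c ≠ 0)
  have h5 := Finset.card_filter_add_card_filter_not (s := (Finset.univ : Finset (Fin n)))
    (fun j => c ≤ (j : ℕ))
  rw [Finset.sum_add_distrib, ← Finset.card_filter, ← Finset.card_filter] at h1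
  simp only [Finset.card_univ, Fintype.card_fin] at h4 h5
  omega

lemma choose_rc (n : ℕ) (hn : 1 < n) :
    ∃ c r : ℕ, 2 ≤ c ∧ n ≤ r * c ∧ ((r : ℝ) + c - 1) ^ 2 < 4 * n := by
  obtain ⟨s, h1, h2⟩ : ∃ s, s * s ≤ n - 1 ∧ n - 1 < (s + 1) * (s + 1) :=
    ⟨Nat.sqrt (n - 1), Nat.sqrt_le _, Nat.lt_succ_sqrt _⟩
  have hs : 1 ≤ s := by
    by_contra hc
    have : s = 0 := by omega
    rw [this] at h2
    omega
  by_cases h : n ≤ s * (s + 1)
  · refine ⟨s + 1, s, by omega, h, ?_⟩
    have : s * s < n := by omega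
    have : (s : ℝ) * s < n := by exact_mod_cast this
    push_cast
    nlinarith
  · refine ⟨s + 1, s + 1, by omega, by omega, ?_⟩
    have : s * (s + 1) + 1 ≤ n := by omega
    have : (s : ℝ) * (s + 1) + 1 ≤ n := by exact_mod_cast this
    push_cast
    nlinarith

theorem result : ∀ lam : ℝ, Real.sqrt 3 / 2 < lam → lam ≤ 1 → ∀ n : ℕ, 1 < n →
    IsGreatest {m : ℤ | ∃ x : Fin n → Plane, LamSeparablePacking x lam ∧ (contactNumber x : ℤ) = m}
      ⌊2 * (n : ℝ) - 2 * Real.sqrt n⌋ := by
  intro lam h1 h2 n hn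
  have l0 : 0 < lam := lt_trans (by positivity) h1
  constructor
  · obtain ⟨c, r, a1, a2, a3⟩ := choose_rc n hn
    refine ⟨grid n c, grid_sep n c lam l0 h2, le_antisymm (upper _ lam h1
      (grid_sep n c lam l0 h2)) ?_⟩
    have b1 : 2 * (n : ℝ) ≤ contactNumber (grid n c) + r + c := by
      exact_mod_cast grid_contact n c r a1 a2
    have b2 : ((r : ℝ) + c - 1) / 2 < Real.sqrt n := by
      apply Real.lt_sqrt_of_sq_lt
      linarith [div_pow ((r : ℝ) + c - 1) 2 2]
    apply Int.le_of_lt_add_one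
    apply Int.floor_lt.mpr
    push_cast
    linarith
  · rintro m ⟨x, hx, rfl⟩
    exact upper x lam h1 hx

end Pool.Agent.Results.MP_6a1796_co.Full
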